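import Mathlib

/-!
# Log-convexity of completely monotone arrays and of absolutely monotone sequences

An array `v : ℕ → ℕ → ℝ` of nonnegative numbers with `v j k = v (j+1) k + v j (k+1)` satisfies
`v 1 0 ^ 2 ≤ v 0 0 * v 2 0`.  The proof is the variance computation behind de Finetti's theorem, and
uses no moment theorem.
-/

namespace Pool.Agent.V8H54.AG

/-- The second moment of the binomial expansion of an array is nonnegative. -/
theorem quad_nonneg (n : ℕ) : ∀ v : ℕ → ℕ → ℝ, (∀ j k, 0 ≤ v j k) →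
    (∀ j k, v j k = v (j + 1) k + v j (k + 1)) → ∀ τ : ℝ,
    0 ≤ (n : ℝ) * (n - 1) * v 2 0 + n * v 1 0 - 2 * n * τ * v 1 0 + τ ^ 2 * v 0 0 := by
  induction n with
  | zero =>
    intro v hv _ τ
    have := mul_nonneg (sq_nonneg τ) (hv 0 0)
    simpa using this
  | succ n ih =>
    intro v hv h τ
    have h1 := ih (fun j k => v j (k + 1)) (fun j k => hv _ _)
      (fun j k => h j (k + 1)) τ
    have h2 := ih (fun j k => v (j + 1) k) (fun j k => hv _ _)
      (fun j k => h (j + 1) k) (τ - 1)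
    have e20 := h 2 0
    have e10 := h 1 0
    have e00 := h 0 0
    simp only [zero_add, Nat.reduceAdd] at h1 h2 e20 e10 e00
    push_cast
    have key : ((n : ℝ) + 1) * (n + 1 - 1) * v 2 0 + (n + 1) * v 1 0 - 2 * (n + 1) * τ * v 1 0
        + τ ^ 2 * v 0 0 =
        ((n : ℝ) * (n - 1) * v 2 1 + n * v 1 1 - 2 * n * τ * v 1 1 + τ ^ 2 * v 0 1) +
        ((n : ℝ) * (n - 1) * v 3 0 + n * v 2 0 - 2 * n * (τ - 1) * v 2 0
          + (τ - 1) ^ 2 * v 1 0) := by
      linear_combination ((n : ℝ) * (n - 1)) * e20 + (n - 2 * n * τ) * e10 + τ ^ 2 * e00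
    rw [key]
    exact add_nonneg h1 h2

/-- Every quadratic form of the array is nonnegative. -/
theorem form_nonneg (v : ℕ → ℕ → ℝ) (hv : ∀ j k, 0 ≤ v j k)
    (h : ∀ j k, v j k = v (j + 1) k + v j (k + 1)) (t : ℝ) :
    0 ≤ v 2 0 - 2 * t * v 1 0 + t ^ 2 * v 0 0 := by
  by_contra hneg
  push Not at hneg
  set δ : ℝ := -(v 2 0 - 2 * t * v 1 0 + t ^ 2 * v 0 0) with hδ
  have hδ0 : 0 < δ := by linarith
  obtain ⟨n, hn⟩ := exists_nat_gt (|v 1 0 - v 2 0| / δ)
  have hn0 : (0 : ℝ) < n := lt_of_le_of_lt (by positivity) hn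
  have hq := quad_nonneg n v hv h (n * t)
  have h3 : (n : ℝ) * δ > |v 1 0 - v 2 0| := by
    rwa [div_lt_iff₀ hδ0] at hn
  have h4 : v 1 0 - v 2 0 ≤ |v 1 0 - v 2 0| := le_abs_self _
  have h5 : (n : ℝ) * (n - 1) * v 2 0 + n * v 1 0 - 2 * n * (n * t) * v 1 0
      + (n * t) ^ 2 * v 0 0 = n * (-(n * δ) + (v 1 0 - v 2 0)) := by
    rw [hδ]; ring
  rw [h5] at hq
  have h6 : -(n * δ) + (v 1 0 - v 2 0) < 0 := by linarith
  have := mul_neg_of_pos_of_neg hn0 h6
  linarith

/-- Log-convexity of a completely monotone array. -/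
theorem array_logconv (v : ℕ → ℕ → ℝ) (hv : ∀ j k, 0 ≤ v j k)
    (h : ∀ j k, v j k = v (j + 1) k + v j (k + 1)) : v 1 0 ^ 2 ≤ v 0 0 * v 2 0 := by
  rcases (hv 0 0).eq_or_lt with h0 | h0
  · have h1 := h 0 0
    have h2 := hv 1 0
    have h3 := hv 0 1
    simp only [zero_add] at h1
    have h4 : v 1 0 = 0 := by linarith
    rw [h4, ← h0]; simp
  · have hf := form_nonneg v hv h (v 1 0 / v 0 0)
    have e : v 2 0 - 2 * (v 1 0 / v 0 0) * v 1 0 + (v 1 0 / v 0 0) ^ 2 * v 0 0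
        = (v 0 0 * v 2 0 - v 1 0 ^ 2) / v 0 0 := by
      field_simp
      ring
    rw [e] at hf
    have := (div_nonneg_iff.1 hf)
    rcases this with h1 | h1
    · linarith [h1.1]
    · linarith [h1.2]

/-- If `A`, `B` commute and `|x| = |A x| + |B x|`, then `|A x|² ≤ |x| |A² x|`. -/
theorem cm_logconv {A B : ℝ → ℝ} (hc : ∀ x, A (B x) = B (A x))
    (hN : ∀ x, |x| = |A x| + |B x|) (x : ℝ) : |A x| ^ 2 ≤ |x| * |A (A x)| := by
  have hcomm : Function.Commute A B := hc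
  have := array_logconv (fun j k => |A^[j] (B^[k] x)|) (fun _ _ => abs_nonneg _) (by
    intro j k
    have h1 := hN (A^[j] (B^[k] x))
    have h2 : B (A^[j] (B^[k] x)) = A^[j] (B^[k + 1] x) := by
      rw [Function.iterate_succ_apply']
      exact ((hcomm.iterate_left j) (B^[k] x)).symm
    have h3 : A (A^[j] (B^[k] x)) = A^[j + 1] (B^[k] x) := by
      rw [Function.iterate_succ_apply']
    rw [h2, h3] at h1
    exact h1)
  simpa using this

/-! ### Absolutely monotone sequences on `ℤ` -/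

/-- The shift operator on sequences indexed by `ℤ`. -/
noncomputable def S : Module.End ℝ (ℤ → ℝ) := LinearMap.funLeft ℝ ℝ (fun k : ℤ => k + 1)

theorem S_apply (a : ℤ → ℝ) (k : ℤ) : S a k = a (k + 1) := rfl

/-- Absolute monotonicity: all forward differences are nonnegative. -/
def AM (a : ℤ → ℝ) : Prop := ∀ (n : ℕ) (k : ℤ), 0 ≤ ((S - 1) ^ n) a k

theorem AM.nonneg {a : ℤ → ℝ} (h : AM a) (k : ℤ) : 0 ≤ a k := by simpa using h 0 k

theorem AM.mono {a : ℤ → ℝ} (h : AM a) (k : ℤ) : a k ≤ a (k + 1) := by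
  have := h 1 k
  simp [S_apply] at this
  exact this

theorem AM.diff {a : ℤ → ℝ} (h : AM a) (n : ℕ) : AM (((S - 1) ^ n) a) := by
  intro m k
  have := h (m + n) k
  rwa [pow_add] at this

theorem AM.logconv {a : ℤ → ℝ} (h : AM a) (k : ℤ) : a (k + 1) ^ 2 ≤ a k * a (k + 2) := by
  have := array_logconv (fun j i => ((S - 1) ^ i) a (k + 2 - j - i)) (fun _ _ => h _ _) (by
    intro j i
    have e : ((S - 1) ^ (i + 1)) a (k + 2 - j - ((i + 1 : ℕ) : ℤ)) =
        ((S - 1) ^ i) a (k + 2 - j - i) - ((S - 1) ^ i) a (k + 2 - ((j + 1 : ℕ) : ℤ) - i) := by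
      rw [pow_succ']
      simp only [Module.End.mul_apply, LinearMap.sub_apply, Module.End.one_apply, Pi.sub_apply,
        S_apply]
      have i1 : k + 2 - (j : ℤ) - ((i + 1 : ℕ) : ℤ) + 1 = k + 2 - j - i := by push_cast; ring
      have i2 : k + 2 - (j : ℤ) - ((i + 1 : ℕ) : ℤ) = k + 2 - ((j + 1 : ℕ) : ℤ) - i := by
        push_cast; ring
      rw [i1, i2]
    rw [e]; ring)
  simp only [pow_zero, Module.End.one_apply, Nat.cast_zero, sub_zero, Nat.cast_one,
    Nat.cast_ofNat] at this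
  have e1 : k + 2 - 1 = k + 1 := by ring
  have e2 : k + 2 - 2 = k := by ring
  rw [e1, e2] at this
  linarith [mul_comm (a k) (a (k + 2))]

/-- The operator `T - S`. -/
noncomputable def Q (T : ℝ) : Module.End ℝ (ℤ → ℝ) := algebraMap ℝ _ T - S

theorem Q_apply (T : ℝ) (a : ℤ → ℝ) (k : ℤ) : Q T a k = T * a k - a (k + 1) := by
  simp [Q, S_apply, Module.algebraMap_end_apply]

theorem Q_comm (T : ℝ) : Commute (S - 1) (Q T) := by
  unfold Q
  refine Commute.sub_right ?_ ?_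
  · exact (Algebra.commutes T (S - 1)).symm
  · exact (Commute.refl S).sub_left (Commute.one_left S)

theorem AM.Q_sq {a : ℤ → ℝ} (h : AM a) (T : ℝ) : AM ((Q T) ((Q T) a)) := by
  intro n k
  have hcm : ((S - 1) ^ n) ((Q T) ((Q T) a)) = (Q T) ((Q T) (((S - 1) ^ n) a)) := by
    have h1 : Commute ((S - 1) ^ n) (Q T) := (Q_comm T).pow_left n
    have h2 : ((S - 1) ^ n) ((Q T) ((Q T) a)) = (((S - 1) ^ n) * (Q T)) ((Q T) a) := rfl
    have h3 : ((S - 1) ^ n) ((Q T) a) = (((S - 1) ^ n) * (Q T)) a := rfl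
    rw [h2, h1.eq]
    change (Q T) (((S - 1) ^ n) ((Q T) a)) = _
    rw [h3, h1.eq]
    rfl
  rw [hcm]
  have hb := h.diff n
  set b := ((S - 1) ^ n) a
  rw [Q_apply, Q_apply, Q_apply]
  have e : k + 1 + 1 = k + 2 := by ring
  rw [e]
  have h0 := hb.nonneg k
  have h2 := hb.nonneg (k + 2)
  have hl := hb.logconv k
  rcases h0.eq_or_lt with h0 | h0
  · rw [← h0] at hl ⊢
    have : b (k + 1) = 0 := by
      have : b (k + 1) ^ 2 = 0 := le_antisymm (by simpa using hl) (sq_nonneg _)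
      simpa using this
    rw [this]; simpa using h2
  · have : 0 ≤ b k * (T * (T * b k - b (k + 1)) - (T * b (k + 1) - b (k + 2))) := by
      nlinarith [sq_nonneg (T * b k - b (k + 1))]
    exact nonneg_of_mul_nonneg_right this h0

theorem AM.Q_pow {a : ℤ → ℝ} (h : AM a) {T : ℝ} (h1 : AM (Q T a)) (m : ℕ) :
    AM (((Q T) ^ m) a) ∧ AM (((Q T) ^ (m + 1)) a) := by
  induction m with
  | zero => exact ⟨by simpa using h, by simpa using h1⟩
  | succ m ih =>
    refine ⟨ih.2, ?_⟩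
    have := ih.1.Q_sq T
    have e : ((Q T) ^ (m + 1 + 1)) a = (Q T) ((Q T) (((Q T) ^ m) a)) := by
      rw [pow_succ', pow_succ']; rfl
    rwa [e]

theorem AM.Q_pow_le {a : ℤ → ℝ} (h : AM a) {T : ℝ} (hT : 1 ≤ T) (h1 : AM (Q T a)) (m : ℕ) :
    (((Q T) ^ m) a) 0 ≤ (T - 1) ^ m * a 0 := by
  induction m with
  | zero => simp
  | succ m ih =>
    have h2 := (h.Q_pow h1 m).1.mono 0
    have e : ((Q T) ^ (m + 1)) a = (Q T) (((Q T) ^ m) a) := by
      rw [pow_succ']; rfl
    rw [e, Q_apply]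
    have h3 : (T - 1) * (((Q T) ^ m) a) 0 ≤ (T - 1) * ((T - 1) ^ m * a 0) :=
      mul_le_mul_of_nonneg_left ih (by linarith)
    calc T * ((Q T ^ m) a) 0 - ((Q T ^ m) a) (0 + 1)
        ≤ (T - 1) * (((Q T) ^ m) a) 0 := by linarith
      _ ≤ (T - 1) * ((T - 1) ^ m * a 0) := h3
      _ = (T - 1) ^ (m + 1) * a 0 := by ring

/-- A sequence vanishing at positive indices. -/
theorem Q_pow_single {e : ℤ → ℝ} (he : ∀ k : ℤ, 1 ≤ k → e k = 0) (T : ℝ) (m : ℕ) :
    (∀ k : ℤ, 1 ≤ k → (((Q T) ^ m) e) k = 0) ∧ (((Q T) ^ m) e) 0 = T ^ m * e 0 := by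
  induction m with
  | zero => exact ⟨fun k hk => by simpa using he k hk, by simp⟩
  | succ m ih =>
    have e1 : ((Q T) ^ (m + 1)) e = (Q T) (((Q T) ^ m) e) := by
      rw [pow_succ']; rfl
    refine ⟨fun k hk => ?_, ?_⟩
    · rw [e1, Q_apply, ih.1 k hk, ih.1 (k + 1) (by linarith)]; simp
    · rw [e1, Q_apply, ih.2, ih.1 (0 + 1) (by norm_num)]; ring

/-- Two absolutely monotone sequences with ratios at most `T` which agree at positive indices
satisfy `a' 0 ≤ a 0`. -/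
theorem zero_le_of_agree {a a' : ℤ → ℝ} {T : ℝ} (hT : 1 ≤ T)
    (h : AM ((S - 1) a)) (h' : AM ((S - 1) a'))
    (hQ : AM (Q T ((S - 1) a))) (hQ' : AM (Q T ((S - 1) a')))
    (hag : ∀ k : ℤ, 1 ≤ k → a k = a' k) : a' 0 ≤ a 0 := by
  by_contra hlt
  push Not at hlt
  set d := a' 0 - a 0 with hd
  have hd0 : 0 < d := by linarith
  have key : ∀ m : ℕ, T ^ m * d ≤ (T - 1) ^ m * ((S - 1) a) 0 := by
    intro m
    have h1 := (h'.Q_pow hQ' m).1.nonneg 0
    have h2 := h.Q_pow_le hT hQ m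
    set e : ℤ → ℝ := (S - 1) (a' - a) with he
    have he1 : ∀ k : ℤ, 1 ≤ k → e k = 0 := by
      intro k hk
      simp only [he, LinearMap.sub_apply, Module.End.one_apply, Pi.sub_apply, S_apply]
      rw [hag k hk, hag (k + 1) (by linarith)]; ring
    have he0 : e 0 = -d := by
      simp only [he, LinearMap.sub_apply, Module.End.one_apply, Pi.sub_apply, S_apply]
      rw [hag (0 + 1) (by norm_num)]; ring
    have h3 := (Q_pow_single he1 T m).2
    rw [he0] at h3
    have h4 : ((Q T) ^ m) ((S - 1) a') = ((Q T) ^ m) ((S - 1) a) + ((Q T) ^ m) e := by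
      rw [he, map_sub, map_sub]; abel
    have h5 := congrFun h4 0
    simp only [Pi.add_apply] at h5
    linarith
  -- contradiction
  have hT0 : 0 < T := by linarith
  have hr : 0 ≤ (T - 1) / T := div_nonneg (by linarith) hT0.le
  have hr1 : (T - 1) / T < 1 := by rw [div_lt_one hT0]; linarith
  have hlim := (tendsto_pow_atTop_nhds_zero_of_lt_one hr hr1).mul_const (((S - 1) a) 0)
  rw [zero_mul] at hlim
  have : d ≤ 0 := by
    refine ge_of_tendsto' hlim (fun m => ?_)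
    have := key m
    rw [div_pow, div_mul_eq_mul_div, le_div_iff₀ (pow_pos hT0 m)]
    linarith
  linarith

end Pool.Agent.V8H54.AG
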