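import Mathlib
import Pool.Agent.V8H54.AG.LogConv

/-!
# Rigidity of commuting pairs with `|x| = |A x| + |B x|`

If `A`, `B` are continuous commuting self-maps of the line with `|x| = |A x| + |B x|`, neither
vanishing off `0`, `A` injective, and `B ∘ B` positive on the positive half-line, then
`|B x| = c x` on the positive half-line, for a constant `c`.
-/

namespace Pool.Agent.V8H54.AG

open Filter Topology Set Function

/-- Iterates of a continuous map with `0 < φ x < x` tend to `0`. -/
theorem iter_pos {φ : ℝ → ℝ} (hp : ∀ x, 0 < x → 0 < φ x) {x : ℝ} (hx : 0 < x) (n : ℕ) :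
    0 < φ^[n] x := by
  induction n with
  | zero => simpa using hx
  | succ n ih => rw [iterate_succ_apply']; exact hp _ ih

theorem iter_anti {φ : ℝ → ℝ} (hp : ∀ x, 0 < x → 0 < φ x) (hl : ∀ x, 0 < x → φ x < x)
    {x : ℝ} (hx : 0 < x) : Antitone (fun n => φ^[n] x) := by
  refine antitone_nat_of_succ_le (fun n => ?_)
  rw [iterate_succ_apply']
  exact (hl _ (iter_pos hp hx n)).le

theorem iter_tendsto {φ : ℝ → ℝ} (hφ : Continuous φ) (hp : ∀ x, 0 < x → 0 < φ x)
    (hl : ∀ x, 0 < x → φ x < x) {x : ℝ} (hx : 0 < x) :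
    Tendsto (fun n => φ^[n] x) atTop (𝓝 0) := by
  have hbdd : BddBelow (range (fun n => φ^[n] x)) :=
    ⟨0, by rintro _ ⟨n, rfl⟩; exact (iter_pos hp hx n).le⟩
  have hlim := tendsto_atTop_ciInf (iter_anti hp hl hx) hbdd
  set L := ⨅ n, φ^[n] x with hL
  have hL0 : 0 ≤ L := le_ciInf (fun n => (iter_pos hp hx n).le)
  have hfix : IsFixedPt φ L := isFixedPt_of_tendsto_iterate hlim hφ.continuousAt
  rcases hL0.eq_or_lt with h | h
  · rw [h]; exact hlim
  · exact absurd hfix (hl L h).ne

section

variable {A B : ℝ → ℝ}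

theorem H_A_le (hc : ∀ x, A (B x) = B (A x)) (hN : ∀ x, |x| = |A x| + |B x|) (x : ℝ) :
    |B (A x)| * |x| ≤ |B x| * |A x| := by
  have h1 := cm_logconv hc hN x
  have h2 := hN (A x)
  have h3 := hN x
  have e : |B x| * |A x| - |B (A x)| * |x| = |x| * |A (A x)| - |A x| ^ 2 := by
    linear_combination (-|A x|) * h3 + |x| * h2
  linarith

theorem H_B_ge (hc : ∀ x, A (B x) = B (A x)) (hN : ∀ x, |x| = |A x| + |B x|) (x : ℝ) :
    |B x| * |B x| ≤ |B (B x)| * |x| := by
  have h1 := cm_logconv (A := B) (B := A) (fun x => (hc x).symm)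
    (fun x => by rw [hN x]; ring) x
  nlinarith

theorem rigid (hA : Continuous A) (hB : Continuous B)
    (hc : ∀ x, A (B x) = B (A x)) (hN : ∀ x, |x| = |A x| + |B x|)
    (hA0 : ∀ x, x ≠ 0 → A x ≠ 0) (hB0 : ∀ x, x ≠ 0 → B x ≠ 0)
    (hi : Injective A) (hBB : ∀ x, 0 < x → 0 < B (B x)) :
    ∃ c, 0 < c ∧ c < 1 ∧ ∀ x, 0 < x → |B x| = c * x := by
  -- basic facts
  have hAz : A 0 = 0 := by
    have := hN 0
    rw [abs_zero] at this
    have h1 := abs_nonneg (A 0)
    have h2 := abs_nonneg (B 0)
    exact abs_eq_zero.1 (by linarith)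
  set φ : ℝ → ℝ := fun x => A (A x) with hφdef
  have hφc : Continuous φ := hA.comp hA
  have hφm : StrictMono φ := by
    rcases hA.strictMono_of_inj hi with h | h
    · exact h.comp h
    · exact h.comp h
  have hφ0 : φ 0 = 0 := by simp [hφdef, hAz]
  have hφp : ∀ x, 0 < x → 0 < φ x := fun x hx => by
    have := hφm hx
    rwa [hφ0] at this
  have hφl : ∀ x, 0 < x → φ x < x := by
    intro x hx
    have h1 := hN x
    have h2 := hN (A x)
    have h3 := abs_pos.2 (hB0 x hx.ne')
    have h4 := abs_nonneg (B (A x))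
    rw [abs_of_pos hx] at h1
    have h5 := le_abs_self (A (A x))
    simp only [hφdef]
    linarith
  set ψ : ℝ → ℝ := fun x => B (B x) with hψdef
  have hψc : Continuous ψ := hB.comp hB
  have hψl : ∀ x, 0 < x → ψ x < x := by
    intro x hx
    have h1 := hN x
    have h2 := hN (B x)
    have h3 := abs_pos.2 (hA0 x hx.ne')
    have h4 := abs_nonneg (A (B x))
    rw [abs_of_pos hx] at h1
    have h5 := le_abs_self (B (B x))
    simp only [hψdef]
    linarith
  set H : ℝ → ℝ := fun x => |B x| / |x| with hH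
  have hHpos : ∀ x, x ≠ 0 → 0 < H x := fun x hx =>
    div_pos (abs_pos.2 (hB0 x hx)) (abs_pos.2 hx)
  have hHlt : ∀ x, x ≠ 0 → H x < 1 := fun x hx => by
    have h0 := abs_pos.2 hx
    rw [hH]
    simp only
    rw [div_lt_one h0]
    have h1 := hN x
    have h3 := abs_pos.2 (hA0 x hx)
    linarith
  have hHA : ∀ x, x ≠ 0 → H (A x) ≤ H x := fun x hx => by
    have h0 := abs_pos.2 hx
    have h1 := abs_pos.2 (hA0 x hx)
    simp only [hH]
    rw [div_le_div_iff₀ h1 h0]
    exact H_A_le hc hN x
  have hHB : ∀ x, x ≠ 0 → H x ≤ H (B x) := fun x hx => by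
    have h0 := abs_pos.2 hx
    have h1 := abs_pos.2 (hB0 x hx)
    simp only [hH]
    rw [div_le_div_iff₀ h0 h1]
    exact H_B_ge hc hN x
  have hAabs : ∀ x, x ≠ 0 → |A x| = (1 - H x) * |x| := fun x hx => by
    have h0 := abs_pos.2 hx
    have h1 := hN x
    simp only [hH]
    field_simp
    linarith
  have hHφ : ∀ x, x ≠ 0 → H (φ x) ≤ H x := fun x hx =>
    (hHA _ (hA0 x hx)).trans (hHA x hx)
  have hHψ : ∀ x, x ≠ 0 → H x ≤ H (ψ x) := fun x hx =>
    (hHB x hx).trans (hHB _ (hB0 x hx))
  -- the limit along `φ`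
  have hanti : ∀ x, 0 < x → Antitone (fun n => H (φ^[n] x)) := fun x hx =>
    antitone_nat_of_succ_le (fun n => by
      rw [iterate_succ_apply']
      exact hHφ _ (iter_pos hφp hx n).ne')
  set L : ℝ → ℝ := fun x => ⨅ n, H (φ^[n] x) with hLdef
  have hbdd : ∀ x, 0 < x → BddBelow (range fun n => H (φ^[n] x)) := fun x hx =>
    ⟨0, by rintro _ ⟨n, rfl⟩; exact (hHpos _ (iter_pos hφp hx n).ne').le⟩
  have hLle : ∀ x, 0 < x → ∀ n, L x ≤ H (φ^[n] x) := fun x hx n => ciInf_le (hbdd x hx) n
  have hcomp : ∀ x y, 0 < x → 0 < y → L y ≤ L x := by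
    intro x y hx hy
    by_contra hlt
    push Not at hlt
    obtain ⟨c', hc1, hc2⟩ := exists_between hlt
    obtain ⟨n0, hn0⟩ := exists_lt_of_ciInf_lt hc1
    have htend := iter_tendsto hφc hφp hφl hx
    obtain ⟨N, hN1, hN2⟩ : ∃ N, n0 ≤ N ∧ φ^[N] x ≤ y := by
      have h1 := (htend.eventually (gt_mem_nhds hy)).and (eventually_ge_atTop n0)
      obtain ⟨N, h1, h2⟩ := h1.exists
      exact ⟨N, h2, h1.le⟩
    set p := φ^[N] x with hp
    have hp0 : 0 < p := iter_pos hφp hx N
    have hHp : ∀ n, H (φ^[n] p) < c' := by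
      intro n
      rw [hp, ← iterate_add_apply]
      exact lt_of_le_of_lt (hanti x hx (by omega : n0 ≤ n + N)) hn0
    have hd1 : L y < 1 := lt_of_le_of_lt (hLle y hy 0) (hHlt _ (by simpa using hy.ne'))
    have hc'1 : c' < 1 := hc2.trans hd1
    have hlow : ∀ n, ((1 - c') ^ 2) ^ n * p ≤ φ^[n] p := by
      intro n
      induction n with
      | zero => simp
      | succ n ih =>
        rw [iterate_succ_apply']
        set z := φ^[n] p with hz
        have hz0 : 0 < z := iter_pos hφp hp0 n
        have h1 := hAabs z hz0.ne'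
        have h2 := hAabs (A z) (hA0 z hz0.ne')
        have h3 := hHp n
        have h4 := hHA z hz0.ne'
        have h5 : φ z = |A (A z)| := (abs_of_pos (hφp z hz0)).symm
        rw [h5, h2, h1, abs_of_pos hz0]
        have h6 : (1 - c') ≤ 1 - H z := by linarith
        have h7 : (1 - c') ≤ 1 - H (A z) := by linarith
        have h8 : 0 < 1 - c' := by linarith
        calc ((1 - c') ^ 2) ^ (n + 1) * p = (1 - c') * ((1 - c') * (((1 - c') ^ 2) ^ n * p)) := by
              ring
          _ ≤ (1 - c') * ((1 - c') * z) := by gcongr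
          _ ≤ (1 - H (A z)) * ((1 - H z) * z) := by
              gcongr
              linarith
    have hup : ∀ n, φ^[n] y ≤ ((1 - L y) ^ 2) ^ n * y := by
      intro n
      induction n with
      | zero => simp
      | succ n ih =>
        rw [iterate_succ_apply']
        set z := φ^[n] y with hz
        have hz0 : 0 < z := iter_pos hφp hy n
        have h1 := hAabs z hz0.ne'
        have h2 := hAabs (A z) (hA0 z hz0.ne')
        have h3 : L y ≤ H z := hLle y hy n
        have h4 := hHA (A z) (hA0 z hz0.ne')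
        have h4' : L y ≤ H (A (A z)) := by
          have := hLle y hy (n + 1)
          rwa [iterate_succ_apply'] at this
        have h5 : φ z = |A (A z)| := (abs_of_pos (hφp z hz0)).symm
        rw [h5, h2, h1, abs_of_pos hz0]
        have h8 : 0 < 1 - L y := by linarith
        have h9 : 0 < 1 - H z := by linarith [hHlt z hz0.ne']
        calc (1 - H (A z)) * ((1 - H z) * z) ≤ (1 - L y) * ((1 - L y) * z) := by
              gcongr
              · linarith
          _ ≤ (1 - L y) * ((1 - L y) * (((1 - L y) ^ 2) ^ n * y)) := by gcongr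
          _ = ((1 - L y) ^ 2) ^ (n + 1) * y := by ring
    have hmono : ∀ n, φ^[n] p ≤ φ^[n] y := fun n => hφm.monotone.iterate n hN2
    have hfin : ∀ n, (((1 - c') / (1 - L y)) ^ 2) ^ n ≤ y / p := by
      intro n
      have h8 : 0 < 1 - L y := by linarith
      have := (hlow n).trans ((hmono n).trans (hup n))
      rw [div_pow, div_pow, div_le_div_iff₀ (by positivity) hp0]
      linarith
    have h1 : 1 < ((1 - c') / (1 - L y)) ^ 2 := by
      have h8 : 0 < 1 - L y := by linarith
      have h9 : 1 < (1 - c') / (1 - L y) := by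
        rw [one_lt_div h8]; linarith
      nlinarith
    have h2 := tendsto_pow_atTop_atTop_of_one_lt h1
    obtain ⟨n, hn⟩ := (h2.eventually (eventually_gt_atTop (y / p))).exists
    linarith [hfin n]
  set c := L 1 with hcdef
  have hLc : ∀ x, 0 < x → L x = c := fun x hx =>
    le_antisymm (hcomp 1 x one_pos hx) (hcomp x 1 hx one_pos)
  have hcH : ∀ x, 0 < x → c ≤ H x := fun x hx => by
    have := hLle x hx 0
    rw [hLc x hx] at this
    simpa using this
  -- uniformity near zero
  have hunif : ∀ ε > 0, ∃ δ > 0, ∀ x, 0 < x → x < δ → H x < c + ε := by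
    intro ε hε
    set U : ℕ → Set ℝ := fun n => {y | 0 < y ∧ |B (φ^[n] y)| < (c + ε) * |φ^[n] y|} with hU
    have hUo : ∀ n, IsOpen (U n) := by
      intro n
      have hcn : Continuous (φ^[n]) := hφc.iterate n
      exact (isOpen_lt continuous_const continuous_id).inter
        (isOpen_lt (hB.comp hcn).abs (continuous_const.mul hcn.abs))
    have hUiff : ∀ n y, 0 < y → (y ∈ U n ↔ H (φ^[n] y) < c + ε) := by
      intro n y hy
      simp only [hU, Set.mem_ofPred_eq, hH]
      rw [div_lt_iff₀ (abs_pos.2 (iter_pos hφp hy n).ne')]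
      exact ⟨fun h => h.2, fun h => ⟨hy, h⟩⟩
    have hUmono : Monotone U := by
      intro m n hmn y hy
      have hy0 : 0 < y := hy.1
      rw [hUiff _ _ hy0] at hy ⊢
      exact lt_of_le_of_lt (hanti y hy0 hmn) hy
    have hcov : Icc (φ 1) 1 ⊆ ⋃ n, U n := by
      intro y hy
      have hy0 : 0 < y := lt_of_lt_of_le (hφp 1 one_pos) hy.1
      have h1 : L y < c + ε := by rw [hLc y hy0]; linarith
      obtain ⟨n, hn⟩ := exists_lt_of_ciInf_lt h1
      exact mem_iUnion.2 ⟨n, (hUiff n y hy0).2 hn⟩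
    obtain ⟨n, hn⟩ := isCompact_Icc.elim_directed_cover U hUo hcov
      (directed_of_isDirected_le hUmono)
    refine ⟨φ^[n] 1, iter_pos hφp one_pos n, fun x hx hxδ => ?_⟩
    have htend := iter_tendsto hφc hφp hφl (one_pos)
    have hex : ∃ m, φ^[m] 1 < x := (htend.eventually (gt_mem_nhds hx)).exists
    classical
    have hm1 := Nat.find_spec hex
    have hm2 : ∀ k < Nat.find hex, ¬ φ^[k] 1 < x := fun k hk => Nat.find_min hex hk
    set m' := Nat.find hex
    have hm'n : n < m' := by
      by_contra hle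
      push Not at hle
      have := iter_anti hφp hφl one_pos hle
      simp only at this
      linarith
    obtain ⟨m, hm⟩ := Nat.exists_eq_succ_of_ne_zero (by omega : m' ≠ 0)
    have hx1 : x ≤ φ^[m] 1 := not_lt.1 (hm2 m (by omega))
    have hivt := intermediate_value_Icc (hφl 1 one_pos).le (hφc.iterate m).continuousOn
    have hmem : x ∈ Icc (φ^[m] (φ 1)) (φ^[m] 1) := by
      refine ⟨?_, hx1⟩
      rw [← iterate_succ_apply, ← hm]
      exact hm1.le
    obtain ⟨y, hy, hyx⟩ := hivt hmem
    have hy0 : 0 < y := lt_of_lt_of_le (hφp 1 one_pos) hy.1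
    have h3 : y ∈ U m := hUmono (by omega : n ≤ m) (hn hy)
    rw [hUiff _ _ hy0, hyx] at h3
    exact h3
  have hfinal : ∀ x, 0 < x → H x = c := by
    intro x hx
    refine le_antisymm ?_ (hcH x hx)
    refine le_of_forall_pos_lt_add (fun ε hε => ?_)
    obtain ⟨δ, hδ, hδ'⟩ := hunif ε hε
    have htend := iter_tendsto hψc hBB hψl hx
    obtain ⟨n, hn⟩ := (htend.eventually (gt_mem_nhds hδ)).exists
    have h1 : ∀ n, H x ≤ H (ψ^[n] x) := by
      intro n
      induction n with
      | zero => simp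
      | succ n ih =>
        rw [iterate_succ_apply']
        exact ih.trans (hHψ _ (iter_pos hBB hx n).ne')
    exact lt_of_le_of_lt (h1 n) (hδ' _ (iter_pos hBB hx n) hn)
  refine ⟨c, ?_, ?_, fun x hx => ?_⟩
  · rw [← hfinal 1 one_pos]; exact hHpos 1 one_ne_zero
  · rw [← hfinal 1 one_pos]; exact hHlt 1 one_ne_zero
  · have := hfinal x hx
    simp only [hH] at this
    rw [abs_of_pos hx, div_eq_iff hx.ne'] at this
    exact this

end

end Pool.Agent.V8H54.AG
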