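import Mathlib
import Pool.Agent.V8H54.AG.Rigid

/-!
# Commuting pairs with `|G x| = |x| + |F x|`

For continuous commuting `G`, `F` with `|G x| = |x| + |F x|` (and mild sign assumptions), the map `G`
is injective and `|F| = c |G|` where `G > 0`.
-/

namespace Pool.Agent.V8H54.AG

open Filter Topology Set Function

/-- The two-sided orbit of `y` under `G`, where `R` chooses preimages. -/
noncomputable def orb (G R : ℝ → ℝ) (y : ℝ) : ℤ → ℝ
  | Int.ofNat n => G^[n] y
  | Int.negSucc n => R^[n + 1] y

theorem orb_zero (G R : ℝ → ℝ) (y : ℝ) : orb G R y 0 = y := rfl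

theorem orb_succ {G R : ℝ → ℝ} (hR : ∀ x, G (R x) = x) (y : ℝ) (k : ℤ) :
    orb G R y (k + 1) = G (orb G R y k) := by
  rcases k with n | n
  · change G^[n + 1] y = G (G^[n] y)
    rw [iterate_succ_apply']
  · rcases n with _ | n
    · change y = G (R^[0 + 1] y)
      simp [hR]
    · have e : (Int.negSucc (n + 1) + 1 : ℤ) = Int.negSucc n := by
        rw [Int.negSucc_eq, Int.negSucc_eq]; push_cast; ring
      rw [e]
      change R^[n + 1] y = G (R^[n + 1 + 1] y)
      rw [iterate_succ_apply' R (n + 1), hR]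

theorem orb_pos (G R : ℝ → ℝ) (y : ℝ) {k : ℤ} (hk : 1 ≤ k) :
    ∃ n : ℕ, orb G R y k = G^[n] (G y) ∧ (n : ℤ) = k - 1 := by
  rcases k with n | n
  · rcases n with _ | n
    · simp at hk
    · refine ⟨n, rfl, ?_⟩
      simp
  · rw [Int.negSucc_eq] at hk
    omega

section

variable {G F R : ℝ → ℝ}

theorem diff_orb (hc : ∀ x, G (F x) = F (G x)) (hN : ∀ x, |G x| = |x| + |F x|)
    (hR : ∀ x, G (R x) = x) (y : ℝ) (n : ℕ) : ∀ k : ℤ,
    ((S - 1) ^ n) (fun k => |orb G R y k|) k = |F^[n] (orb G R y k)| := by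
  have hcomm : Function.Commute F G := fun x => (hc x).symm
  induction n with
  | zero => intro k; simp
  | succ n ih =>
    intro k
    rw [pow_succ']
    simp only [Module.End.mul_apply, LinearMap.sub_apply, Module.End.one_apply, Pi.sub_apply,
      S_apply]
    rw [ih, ih, orb_succ hR, (hcomm.iterate_left n) (orb G R y k), hN, iterate_succ_apply']
    ring

theorem am_orb (hc : ∀ x, G (F x) = F (G x)) (hN : ∀ x, |G x| = |x| + |F x|)
    (hR : ∀ x, G (R x) = x) (y : ℝ) : AM (fun k => |orb G R y k|) := by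
  intro n k
  rw [diff_orb hc hN hR]
  exact abs_nonneg _

theorem G_logconv (hc : ∀ x, G (F x) = F (G x)) (hN : ∀ x, |G x| = |x| + |F x|)
    (hR : ∀ x, G (R x) = x) (x : ℝ) : |G x| ^ 2 ≤ |x| * |G (G x)| := by
  have h := (am_orb hc hN hR x).logconv 0
  have e1 : orb G R x (0 + 1) = G x := by rw [orb_succ hR, orb_zero]
  have e2 : orb G R x (0 + 2) = G (G x) := by
    have : (0 + 2 : ℤ) = 0 + 1 + 1 := by norm_num
    rw [this, orb_succ hR, e1]
  simpa only [e1, e2, orb_zero] using h

theorem F_logconv (hc : ∀ x, G (F x) = F (G x)) (hN : ∀ x, |G x| = |x| + |F x|)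
    (hR : ∀ x, G (R x) = x) (x : ℝ) : |F x| ^ 2 ≤ |x| * |F (F x)| := by
  have h := G_logconv hc hN hR x
  have h1 := hN x
  have h2 := hN (G x)
  have h3 := hN (F x)
  rw [← hc x] at h2
  rw [h3] at h2
  rw [h2, h1] at h
  nlinarith

theorem F_bdd (hF : Continuous F) (hF0 : F 0 = 0) (hFne : ∀ x, x ≠ 0 → F x ≠ 0)
    (hc : ∀ x, G (F x) = F (G x)) (hN : ∀ x, |G x| = |x| + |F x|)
    (hR : ∀ x, G (R x) = x) : ∃ K : ℝ, 0 ≤ K ∧ ∀ x, |F x| ≤ K * |x| := by
  obtain ⟨ε, hε, hε1, hεF⟩ : ∃ ε > 0, ε ≤ 1 ∧ ∀ u, |u| < ε → |F u| < 1 := by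
    have h0 : ContinuousAt F 0 := hF.continuousAt
    obtain ⟨δ, hδ, h⟩ := Metric.continuousAt_iff.1 h0 1 one_pos
    refine ⟨min δ 1, lt_min hδ one_pos, min_le_right _ _, fun u hu => ?_⟩
    have := @h u (by simpa [Real.dist_eq] using lt_of_lt_of_le hu (min_le_left _ _))
    simpa [Real.dist_eq, hF0] using this
  obtain ⟨C, hC⟩ := (isCompact_Icc (a := (-1 : ℝ)) (b := 1)).exists_bound_of_continuousOn
    hF.continuousOn
  have hC' : ∀ x, |x| ≤ 1 → |F x| ≤ C := fun x hx => by
    simpa using hC x (abs_le.1 hx)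
  have hC0 : 0 ≤ C := (abs_nonneg _).trans (hC' 0 (by simp))
  set K := max (C / ε) 2 with hK
  have hK2 : 2 ≤ K := le_max_right _ _
  have helper : ∀ z, |z| ≤ 1 → K * |z| < |F z| → |z| < ε := by
    intro z hz h
    by_contra hle
    push Not at hle
    have h1 : C ≤ C / ε * |z| := by
      rw [div_mul_eq_mul_div, le_div_iff₀ hε]
      exact mul_le_mul_of_nonneg_left hle hC0
    have h2 : C / ε * |z| ≤ K * |z| := mul_le_mul_of_nonneg_right (le_max_left _ _) (abs_nonneg _)
    linarith [hC' z hz]
  have hnear : ∀ x, |x| ≤ 1 → |F x| ≤ K * |x| := by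
    intro x hx
    by_contra hlt
    push Not at hlt
    have hx0 : x ≠ 0 := by
      rintro rfl
      simp [hF0] at hlt
    have hP : ∀ n, |F^[n] x| < ε ∧ K * |F^[n] x| < |F^[n + 1] x| ∧ F^[n] x ≠ 0 := by
      intro n
      induction n with
      | zero => exact ⟨helper x hx hlt, by simpa using hlt, by simpa using hx0⟩
      | succ n ih =>
        obtain ⟨h1, h2, h3⟩ := ih
        rw [iterate_succ_apply'] at h2
        set z := F^[n] x with hz
        have h4 : |F z| < 1 := hεF z h1
        have h5 := F_logconv hc hN hR z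
        have hz0 : 0 < |z| := abs_pos.2 h3
        have hFz0 : 0 < |F z| := abs_pos.2 (hFne z h3)
        have h6 : K * |F z| < |F (F z)| := by
          have : |z| * (K * |F z|) < |z| * |F (F z)| := by
            calc |z| * (K * |F z|) = (K * |z|) * |F z| := by ring
              _ < |F z| * |F z| := mul_lt_mul_of_pos_right h2 hFz0
              _ = |F z| ^ 2 := by ring
              _ ≤ _ := h5
          exact lt_of_mul_lt_mul_left this hz0.le
        rw [iterate_succ_apply' F n, iterate_succ_apply' F (n + 1), iterate_succ_apply' F n]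
        exact ⟨helper _ h4.le h6, h6, hFne _ h3⟩
    have hgrow : ∀ n, 2 ^ n * |x| ≤ |F^[n] x| := by
      intro n
      induction n with
      | zero => simp
      | succ n ih =>
        have h1 := (hP n).2.1
        have h2 : 2 * |F^[n] x| ≤ K * |F^[n] x| := mul_le_mul_of_nonneg_right hK2 (abs_nonneg _)
        calc 2 ^ (n + 1) * |x| = 2 * (2 ^ n * |x|) := by ring
          _ ≤ 2 * |F^[n] x| := by linarith
          _ ≤ |F^[n + 1] x| := by linarith
    have hlim := tendsto_pow_atTop_atTop_of_one_lt (r := (2 : ℝ)) (by norm_num)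
    obtain ⟨n, hn⟩ := (hlim.eventually (eventually_gt_atTop (ε / |x|))).exists
    have hx0' : 0 < |x| := abs_pos.2 hx0
    rw [div_lt_iff₀ hx0'] at hn
    linarith [hgrow n, (hP n).1]
  refine ⟨K, by linarith, ?_⟩
  by_contra hex
  push Not at hex
  obtain ⟨x0, hx0⟩ := hex
  set V : Set ℝ := (fun x => |x|) '' {x | K * |x| < |F x|} with hV
  have hVne : V.Nonempty := ⟨|x0|, x0, hx0, rfl⟩
  have hVlb : ∀ v ∈ V, 1 ≤ v := by
    rintro _ ⟨x, hx, rfl⟩
    by_contra hlt
    push Not at hlt
    have hx' : K * |x| < |F x| := hx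
    linarith [hnear x hlt.le]
  have hVb : BddBelow V := ⟨1, hVlb⟩
  set r := sInf V with hr
  have hr1 : 1 ≤ r := le_csInf hVne hVlb
  -- a positive lower bound for `|F|` on the annulus
  obtain ⟨m, hm, hmF⟩ : ∃ m > 0, ∀ x, r ≤ |x| → |x| ≤ r + 1 → m ≤ |F x| := by
    have hcomp : IsCompact {x : ℝ | r ≤ |x| ∧ |x| ≤ r + 1} := by
      refine Metric.isCompact_of_isClosed_isBounded ?_ ?_
      · exact (isClosed_le continuous_const continuous_abs).inter
          (isClosed_le continuous_abs continuous_const)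
      · refine (Metric.isBounded_closedBall (x := (0 : ℝ)) (r := r + 1)).subset ?_
        intro x hx
        simpa [Real.dist_eq] using hx.2
    obtain ⟨p, hp, hpm⟩ := hcomp.exists_isMinOn ⟨r, by
      rw [Set.mem_ofPred_eq, abs_of_nonneg (by linarith)]; constructor <;> linarith⟩
      (hF.abs.continuousOn)
    refine ⟨|F p|, abs_pos.2 (hFne p ?_), fun x h1 h2 => hpm ⟨h1, h2⟩⟩
    rintro rfl
    have := hp.1
    simp at this
    linarith
  obtain ⟨δ, hδ, hδF⟩ : ∃ δ > 0, ∀ u, |u| < δ → |F u| < r := by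
    have h0 : ContinuousAt F 0 := hF.continuousAt
    obtain ⟨δ, hδ, h⟩ := Metric.continuousAt_iff.1 h0 r (by linarith)
    refine ⟨δ, hδ, fun u hu => ?_⟩
    have := @h u (by simpa [Real.dist_eq] using hu)
    simpa [Real.dist_eq, hF0] using this
  set η := min (min m δ) 1 with hη
  have hη0 : 0 < η := lt_min (lt_min hm hδ) one_pos
  obtain ⟨v, ⟨x, hx, rfl⟩, hv⟩ := exists_lt_of_csInf_lt hVne (show sInf V < r + η by
    rw [← hr]; linarith)
  simp only at hv
  have hx' : K * |x| < |F x| := hx
  set y := R x with hy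
  have hyx : G y = x := hR x
  have hxy : |x| = |y| + |F y| := by rw [← hyx]; exact hN y
  have hFx : |F x| = |F y| + |F (F y)| := by
    rw [← hyx, ← hc, hN]
  have hor : K * |y| < |F y| ∨ K * |F y| < |F (F y)| := by
    by_contra hno
    push Not at hno
    nlinarith [hno.1, hno.2]
  have hη1 : η ≤ m := (min_le_left _ _).trans (min_le_left _ _)
  have hη2 : η ≤ δ := (min_le_left _ _).trans (min_le_right _ _)
  have hη3 : η ≤ 1 := min_le_right _ _
  rcases hor with h | h
  · have h1 : r ≤ |y| := csInf_le hVb ⟨y, h, rfl⟩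
    have h2 : m ≤ |F y| := hmF y h1 (by linarith [abs_nonneg (F y)])
    linarith
  · have h1 : r ≤ |F y| := csInf_le hVb ⟨F y, h, rfl⟩
    have h2 : |F y| < r := hδF y (by linarith)
    linarith

theorem abs_eq_of_G_eq (hF : Continuous F) (hF0 : F 0 = 0) (hFne : ∀ x, x ≠ 0 → F x ≠ 0)
    (hc : ∀ x, G (F x) = F (G x)) (hN : ∀ x, |G x| = |x| + |F x|)
    (hR : ∀ x, G (R x) = x) {y z : ℝ} (hyz : G y = G z) : |y| = |z| := by
  obtain ⟨K, hK, hKF⟩ := F_bdd hF hF0 hFne hc hN hR
  have hcomm : Function.Commute F G := fun x => (hc x).symm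
  have hAM1 : ∀ y, AM ((S - 1) (fun k => |orb G R y k|)) := by
    intro y
    simpa using (am_orb hc hN hR y).diff 1
  have hAM2 : ∀ y, AM (Q (1 + K) ((S - 1) (fun k => |orb G R y k|))) := by
    intro y n k
    have h1 : Commute ((S - 1) ^ n) (Q (1 + K)) := (Q_comm (1 + K)).pow_left n
    have h2 : ((S - 1) ^ n) (Q (1 + K) ((S - 1) (fun k => |orb G R y k|))) =
        Q (1 + K) (((S - 1) ^ (n + 1)) (fun k => |orb G R y k|)) := by
      have h3 : ((S - 1) ^ n) (Q (1 + K) ((S - 1) (fun k => |orb G R y k|))) =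
        (((S - 1) ^ n) * (Q (1 + K))) ((S - 1) (fun k => |orb G R y k|)) := rfl
      rw [h3, h1.eq, pow_succ]
      rfl
    rw [h2, Q_apply, diff_orb hc hN hR, diff_orb hc hN hR, orb_succ hR,
      (hcomm.iterate_left (n + 1)) (orb G R y k), hN]
    have := hKF (F^[n + 1] (orb G R y k))
    linarith
  have key : ∀ y z, G y = G z → |z| ≤ |y| := by
    intro y z hyz
    have := zero_le_of_agree (a := fun k => |orb G R y k|) (a' := fun k => |orb G R z k|)
      (T := 1 + K) (by linarith) (hAM1 y) (hAM1 z) (hAM2 y) (hAM2 z) (by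
        intro k hk
        obtain ⟨n, h1, h2⟩ := orb_pos G R y hk
        obtain ⟨n', h1', h2'⟩ := orb_pos G R z hk
        have : n = n' := by exact_mod_cast h2.trans h2'.symm
        rw [h1, h1', this, hyz])
    simpa [orb_zero] using this
  exact le_antisymm (key z y hyz.symm) (key y z hyz)

/-- The rigidity theorem for expanding pairs. -/
theorem expand {G F : ℝ → ℝ} (hG : Continuous G) (hF : Continuous F) (hF0 : F 0 = 0)
    (hc : ∀ x, G (F x) = F (G x)) (hN : ∀ x, |G x| = |x| + |F x|)
    (hodd : ∀ x, x ≠ 0 → G x * G (-x) < 0) (hsg : ∀ x, x ≠ 0 → 0 < F x * G x) :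
    ∃ c, 0 < c ∧ c < 1 ∧ ∀ y, 0 < G y → |F y| = c * G y := by
  have hFne : ∀ x, x ≠ 0 → F x ≠ 0 := fun x hx h => by
    have := hsg x hx
    rw [h] at this
    simp at this
  have hG0 : G 0 = 0 := by
    have := hN 0
    rw [hF0] at this
    simpa using this
  have hsurj : Surjective G := by
    intro t
    have hge : ∀ x, |x| ≤ |G x| := fun x => by
      rw [hN x]; linarith [abs_nonneg (F x)]
    set n := |t| + 1 with hn
    have hn0 : 0 < n := by positivity
    have h1 := hodd n hn0.ne'
    have h2 := hge n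
    have h3 := hge (-n)
    rw [abs_neg, abs_of_pos hn0] at h3
    rw [abs_of_pos hn0] at h2
    have ht1 := le_abs_self t
    have ht2 := neg_abs_le t
    rcases lt_or_ge (G n) 0 with h | h
    · have h4 : 0 < G (-n) := by
        by_contra hle
        push Not at hle
        nlinarith
      rw [abs_of_neg h] at h2
      rw [abs_of_pos h4] at h3
      exact mem_range_of_exists_le_of_exists_ge hG ⟨n, by linarith⟩ ⟨-n, by linarith⟩
    · have h4 : G (-n) < 0 := by
        by_contra hle
        push Not at hle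
        nlinarith
      rw [abs_of_nonneg h] at h2
      rw [abs_of_neg h4] at h3
      exact mem_range_of_exists_le_of_exists_ge hG ⟨-n, by linarith⟩ ⟨n, by linarith⟩
  set R : ℝ → ℝ := surjInv hsurj with hRdef
  have hR : ∀ x, G (R x) = x := fun x => surjInv_eq hsurj x
  have hinj : Injective G := by
    intro y z hyz
    rcases abs_eq_abs.1 (abs_eq_of_G_eq hF hF0 hFne hc hN hR hyz) with h | h
    · exact h
    · by_cases hz : z = 0
      · rw [h, hz]; simp
      · have h1 := hodd z hz
        rw [h] at hyz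
        rw [hyz] at h1
        nlinarith [mul_self_nonneg (G z)]
  have hRG : ∀ x, R (G x) = x := fun x => hinj (hR (G x))
  have hRsurj : Surjective R := fun x => ⟨G x, hRG x⟩
  have hRc : Continuous R := by
    rcases hG.strictMono_of_inj hinj with h | h
    · have hm : Monotone R := by
        intro x y hxy
        rw [← h.le_iff_le, hR, hR]
        exact hxy
      exact hm.continuous_of_surjective hRsurj
    · have hm : Monotone (fun x => - R x) := by
        intro x y hxy
        simp only
        rw [neg_le_neg_iff, ← h.le_iff_ge, hR, hR]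
        exact hxy
      have hc2 : Continuous (fun x => - R x) := hm.continuous_of_surjective (by
        intro x
        obtain ⟨y, hy⟩ := hRsurj (-x)
        exact ⟨y, by simp [hy]⟩)
      have h3 : R = fun x => -(-R x) := by funext x; ring
      rw [h3]
      exact hc2.neg
  obtain ⟨c, hc0, hc1, hcc⟩ := rigid (A := R) (B := fun x => F (R x)) hRc (hF.comp hRc)
    (by
      intro x
      apply hinj
      rw [hR, hc, hR])
    (by
      intro x
      have := hN (R x)
      rwa [hR] at this)
    (by
      intro x hx h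
      apply hx
      rw [← hR x, h, hG0])
    (by
      intro x hx
      apply hFne
      intro h
      apply hx
      rw [← hR x, h, hG0])
    (by
      intro x y h
      rw [← hR x, ← hR y, h])
    (by
      intro x hx
      have hpos : ∀ y, 0 < y → 0 < F (R y) := by
        intro y hy
        have h1 : R y ≠ 0 := by
          intro h
          have := hR y
          rw [h, hG0] at this
          exact hy.ne this
        have h2 := hsg (R y) h1
        rw [hR] at h2
        exact (pos_iff_pos_of_mul_pos h2).2 hy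
      exact hpos _ (hpos x hx))
  refine ⟨c, hc0, hc1, fun y hy => ?_⟩
  have := hcc (G y) hy
  simpa [hRG] using this

end

end Pool.Agent.V8H54.AG
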