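import Mathlib
import Pool.Agent.V8H54.AG.Expand

/-!
# Sign structure of the continuous solutions of `f (x + f x) = f x + f (f x)`
-/

namespace Pool.Agent.V8H54.AG

open Filter Topology Set Function

/-- Continuous solutions of the functional equation. -/
def Sol (f : ℝ → ℝ) : Prop := Continuous f ∧ ∀ x, f (x + f x) = f x + f (f x)

/-- The reflected function. -/
def mirr (f : ℝ → ℝ) : ℝ → ℝ := fun x => - f (-x)

theorem mirr_mirr (f : ℝ → ℝ) : mirr (mirr f) = f := by
  funext x; simp [mirr]

theorem Sol.mir {f : ℝ → ℝ} (h : Sol f) : Sol (mirr f) := by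
  refine ⟨(h.1.comp continuous_neg).neg, fun x => ?_⟩
  have := h.2 (-x)
  simp only [mirr]
  have e1 : -(x + -f (-x)) = -x + f (-x) := by ring
  rw [e1, this, neg_neg]
  ring

theorem Sol.zero {f : ℝ → ℝ} (h : Sol f) : f 0 = 0 := by
  have := h.2 0
  rw [zero_add] at this
  linarith

theorem Sol.comm {f : ℝ → ℝ} (h : Sol f) (x : ℝ) : f (x + f x) = f x + f (f x) := h.2 x

theorem sign_const {f : ℝ → ℝ} (hf : Continuous f) {s : Set ℝ} (hs : s.OrdConnected)
    (hne : ∀ x ∈ s, f x ≠ 0) : (∀ x ∈ s, 0 < f x) ∨ (∀ x ∈ s, f x < 0) := by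
  by_contra hcon
  push Not at hcon
  obtain ⟨⟨x, hx, hx'⟩, ⟨y, hy, hy'⟩⟩ := hcon
  obtain ⟨z, hz, hz'⟩ := hs.isPreconnected.intermediate_value hx hy hf.continuousOn ⟨hx', hy'⟩
  exact hne z hz hz'

theorem Sol.periodic {f : ℝ → ℝ} (h : Sol f) {x t : ℝ} (hx : f x = t) (ht : f t = 0) (n : ℕ) :
    f (x + n * t) = t := by
  induction n with
  | zero => simpa using hx
  | succ n ih =>
    have := h.2 (x + n * t)
    rw [ih, ht] at this
    push_cast
    rw [show x + (n + 1) * t = x + n * t + t by ring, this]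
    ring

theorem exists_near {s x d : ℝ} (hd : 0 < d) (hs : s ≤ x) : ∃ n : ℕ, |s + n * d - x| < d := by
  refine ⟨⌊(x - s) / d⌋₊, ?_⟩
  have h0 : 0 ≤ (x - s) / d := div_nonneg (by linarith) hd.le
  have h1 := Nat.floor_le h0
  have h2 := Nat.lt_floor_add_one ((x - s) / d)
  rw [le_div_iff₀ hd] at h1
  rw [div_lt_iff₀ hd] at h2
  rw [abs_lt]
  constructor <;> linarith

theorem Sol.noSmall {f : ℝ → ℝ} (h : Sol f) {y : ℝ} (hy : 0 < y) (hfy : 0 < f y) :
    ∃ ε > 0, ∀ t, 0 < t → t < ε → f t ≠ 0 := by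
  have hcont : ContinuousAt f y := h.1.continuousAt
  obtain ⟨η, hη, hη'⟩ := Metric.continuousAt_iff.1 hcont (f y / 2) (by linarith)
  refine ⟨min η (f y / 2), lt_min hη (by linarith), fun t ht htε hft => ?_⟩
  have ht1 : t < η := lt_of_lt_of_le htε (min_le_left _ _)
  have ht2 : t < f y / 2 := lt_of_lt_of_le htε (min_le_right _ _)
  have hivt := intermediate_value_Icc hy.le h.1.continuousOn
  obtain ⟨x, hx, hxt⟩ := hivt (show t ∈ Icc (f 0) (f y) by
    rw [h.zero]; constructor <;> linarith)
  obtain ⟨n, hn⟩ := exists_near ht hx.2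
  have h1 := h.periodic hxt hft n
  have h2 := @hη' (x + n * t) (by rw [Real.dist_eq]; linarith)
  rw [h1, Real.dist_eq, abs_lt] at h2
  linarith [h2.1]

/-- The backward orbit argument. -/
theorem Sol.backward {f : ℝ → ℝ} (h : Sol f) {z y ε : ℝ} (hzy : z < y) (hz : f z = 0)
    (hpos : ∀ x, z < x → x ≤ y → 0 < f x) (hε : 0 < ε)
    (hneg : ∀ t, 0 < t → t < ε → f t < 0) : False := by
  have hex : ∀ w, ∃ w', (z < w ∧ w ≤ y) → (z < w' ∧ w' < w ∧ w' + f w' = w) := by
    intro w
    by_cases hw : z < w ∧ w ≤ y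
    · have hc : Continuous (fun x => x + f x) := continuous_id.add h.1
      have hivt := intermediate_value_Ioo hw.1.le hc.continuousOn
      obtain ⟨w', hw', hw2⟩ := hivt (show w ∈ Ioo (z + f z) (w + f w) by
        rw [hz]
        have := hpos w hw.1 hw.2
        constructor
        · linarith [hw.1]
        · linarith)
      exact ⟨w', fun _ => ⟨hw'.1, hw'.2, hw2⟩⟩
    · exact ⟨0, fun h => absurd h hw⟩
  choose ρ hρ using hex
  set u : ℕ → ℝ := fun n => ρ^[n] y with hu
  have hu0 : ∀ n, z < u n ∧ u n ≤ y := by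
    intro n
    induction n with
    | zero => exact ⟨hzy, le_refl _⟩
    | succ n ih =>
      have := hρ (u n) ih
      have e : u (n + 1) = ρ (u n) := by simp only [hu]; rw [iterate_succ_apply']
      rw [e]
      exact ⟨this.1, this.2.1.le.trans ih.2⟩
  have hus : ∀ n, u (n + 1) < u n ∧ u (n + 1) + f (u (n + 1)) = u n := by
    intro n
    have := hρ (u n) (hu0 n)
    have e : u (n + 1) = ρ (u n) := by simp only [hu]; rw [iterate_succ_apply']
    rw [e]
    exact ⟨this.2.1, this.2.2⟩
  have hanti : Antitone u := antitone_nat_of_succ_le (fun n => (hus n).1.le)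
  have hlim := tendsto_atTop_ciInf hanti ⟨z, by rintro _ ⟨n, rfl⟩; exact (hu0 n).1.le⟩
  set L := ⨅ n, u n
  have hfL : Tendsto (fun n => f (u n)) atTop (𝓝 (f L)) := (h.1.tendsto L).comp hlim
  have hL : f L = 0 := by
    have h1 : Tendsto (fun n => u (n + 1) + f (u (n + 1))) atTop (𝓝 (L + f L)) :=
      ((tendsto_add_atTop_iff_nat 1).2 hlim).add ((tendsto_add_atTop_iff_nat 1).2 hfL)
    have h2 : (fun n => u (n + 1) + f (u (n + 1))) = u := by
      funext n; exact (hus n).2
    rw [h2] at h1
    have := tendsto_nhds_unique h1 hlim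
    linarith
  rw [hL] at hfL
  obtain ⟨N, hN⟩ := eventually_atTop.1 (hfL.eventually (gt_mem_nhds hε))
  have hstep : ∀ n, N ≤ n → f (u n) ≤ f (u (n + 1)) := by
    intro n hn
    have h1 := h.2 (u (n + 1))
    rw [(hus n).2] at h1
    have h2 := hneg (f (u (n + 1))) (hpos _ (hu0 _).1 (hu0 _).2) (hN (n + 1) (by omega))
    linarith
  have hge : ∀ n, N ≤ n → f (u N) ≤ f (u n) := by
    intro n hn
    induction n, hn using Nat.le_induction with
    | base => exact le_refl _
    | succ n hn ih => exact ih.trans (hstep n hn)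
  have h3 : f (u N) ≤ 0 := ge_of_tendsto hfL (eventually_atTop.2 ⟨N, hge⟩)
  have h4 := hpos _ (hu0 N).1 (hu0 N).2
  linarith

/-- If `f` takes a positive value on the positive half-line, it is positive there. -/
theorem Sol.dichotomy {f : ℝ → ℝ} (h : Sol f) {y : ℝ} (hy : 0 < y) (hfy : 0 < f y) :
    ∀ x, 0 < x → 0 < f x := by
  obtain ⟨ε, hε, hne⟩ := h.noSmall hy hfy
  rcases sign_const h.1 (s := Ioo 0 ε) ordConnected_Ioo (fun x hx => hne x hx.1 hx.2) with
    hpos | hneg
  · -- positive near zero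
    by_contra hcon
    push Not at hcon
    obtain ⟨x1, hx1, hfx1⟩ := hcon
    set C : Set ℝ := {x | ε ≤ x ∧ f x ≤ 0} with hC
    have hCc : IsClosed C := (isClosed_le continuous_const continuous_id).inter
      (isClosed_le h.1 continuous_const)
    have hCne : C.Nonempty := by
      refine ⟨x1, ?_, hfx1⟩
      by_contra hlt
      push Not at hlt
      linarith [hpos x1 ⟨hx1, hlt⟩]
    have hCb : BddBelow C := ⟨ε, fun x hx => hx.1⟩
    have hβ := hCc.csInf_mem hCne hCb
    set β := sInf C with hβdef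
    have hβ0 : 0 < β := lt_of_lt_of_le hε hβ.1
    have hposβ : ∀ x, 0 < x → x < β → 0 < f x := by
      intro x hx hxβ
      by_contra hle
      push Not at hle
      rcases lt_or_ge x ε with hxε | hxε
      · linarith [hpos x ⟨hx, hxε⟩]
      · have := csInf_le hCb (show x ∈ C from ⟨hxε, hle⟩)
        linarith
    have hfβ : f β = 0 := by
      refine le_antisymm hβ.2 ?_
      have hcl : IsClosed {x | 0 ≤ f x} := isClosed_le continuous_const h.1
      have hsub : Ioo 0 β ⊆ {x | 0 ≤ f x} := fun x hx => (hposβ x hx.1 hx.2).le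
      have := closure_minimal hsub hcl
      rw [closure_Ioo hβ0.ne] at this
      exact this ⟨hβ0.le, le_refl _⟩
    have hgne : ∀ x, 0 < x → x < β → x + f x ≠ β := by
      intro x hx hxβ hg
      have h1 := hposβ x hx hxβ
      have h2 := hposβ (f x) h1 (by linarith)
      have h3 := h.2 x
      rw [hg, hfβ] at h3
      linarith
    have hglt : ∀ x, 0 < x → x < β → x + f x < β := by
      intro x hx hxβ
      by_contra hge
      push Not at hge
      have hgt : β < x + f x := lt_of_le_of_ne hge (hgne x hx hxβ).symm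
      have hc : Continuous (fun x => x + f x) := continuous_id.add h.1
      have hivt := intermediate_value_Ioo hx.le hc.continuousOn
      obtain ⟨x', hx', hx2⟩ := hivt (show β ∈ Ioo (0 + f 0) (x + f x) by
        rw [h.zero]; constructor
        · simpa using hβ0
        · exact hgt)
      exact hgne x' hx'.1 (hx'.2.trans hxβ) hx2
    set g : ℝ → ℝ := fun x => x + f x with hg
    set u : ℕ → ℝ := fun n => g^[n] (β / 2) with hu
    have hu0 : ∀ n, 0 < u n ∧ u n < β := by
      intro n
      induction n with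
      | zero => simp only [hu, iterate_zero, id]; constructor <;> linarith
      | succ n ih =>
        have e : u (n + 1) = u n + f (u n) := by simp only [hu]; rw [iterate_succ_apply']
        rw [e]
        exact ⟨by linarith [hposβ _ ih.1 ih.2, ih.1], hglt _ ih.1 ih.2⟩
    have hus : ∀ n, u (n + 1) = u n + f (u n) := by
      intro n
      simp only [hu]; rw [iterate_succ_apply']
    have hmono : Monotone u := monotone_nat_of_le_succ (fun n => by
      rw [hus]; linarith [hposβ _ (hu0 n).1 (hu0 n).2])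
    have hlim := tendsto_atTop_ciSup hmono ⟨β, by rintro _ ⟨n, rfl⟩; exact (hu0 n).2.le⟩
    set L := ⨆ n, u n
    have hfL : Tendsto (fun n => f (u n)) atTop (𝓝 (f L)) := (h.1.tendsto L).comp hlim
    have hL : f L = 0 := by
      have h1 : Tendsto (fun n => u n + f (u n)) atTop (𝓝 (L + f L)) := hlim.add hfL
      have h2 : (fun n => u n + f (u n)) = fun n => u (n + 1) := by
        funext n; exact (hus n).symm
      rw [h2] at h1
      have := tendsto_nhds_unique h1 ((tendsto_add_atTop_iff_nat 1).2 hlim)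
      linarith
    have hstep : ∀ n, f (u n) ≤ f (u (n + 1)) := by
      intro n
      rw [hus, h.2]
      have h1 := hposβ _ (hu0 n).1 (hu0 n).2
      have h2 := hposβ (f (u n)) h1 (by linarith [hglt _ (hu0 n).1 (hu0 n).2, (hu0 n).1])
      linarith
    have hge : ∀ n, f (u 0) ≤ f (u n) := fun n =>
      (monotone_nat_of_le_succ hstep) (Nat.zero_le n)
    have h3 : f (u 0) ≤ f L := ge_of_tendsto' hfL hge
    have h4 := hposβ _ (hu0 0).1 (hu0 0).2
    linarith
  · -- negative near zero
    exfalso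
    set C : Set ℝ := {x | (0 ≤ x ∧ x ≤ y) ∧ f x ≤ 0} with hC
    have hCc : IsClosed C := (isClosed_Icc).inter (isClosed_le h.1 continuous_const)
    have hCne : C.Nonempty := ⟨0, ⟨le_refl _, hy.le⟩, h.zero.le⟩
    have hCb : BddAbove C := ⟨y, fun x hx => hx.1.2⟩
    have hz := hCc.csSup_mem hCne hCb
    set z := sSup C with hzdef
    have hzy : z < y := by
      refine lt_of_le_of_ne hz.1.2 ?_
      intro he
      have := hz.2
      rw [he] at this
      linarith
    have hpos : ∀ x, z < x → x ≤ y → 0 < f x := by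
      intro x hx hxy
      by_contra hle
      push Not at hle
      have := le_csSup hCb (show x ∈ C from ⟨⟨hz.1.1.trans hx.le, hxy⟩, hle⟩)
      linarith
    have hfz : f z = 0 := by
      refine le_antisymm hz.2 ?_
      have hcl : IsClosed {x | 0 ≤ f x} := isClosed_le continuous_const h.1
      have hsub : Ioo z y ⊆ {x | 0 ≤ f x} := fun x hx => (hpos x hx.1 hx.2.le).le
      have := closure_minimal hsub hcl
      rw [closure_Ioo hzy.ne] at this
      exact this ⟨le_refl _, hzy.le⟩
    exact h.backward hzy hfz hpos hε (fun t h1 h2 => hneg t ⟨h1, h2⟩)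

/-- Step S2. -/
theorem Sol.step2 {f : ℝ → ℝ} (h : Sol f) {b : ℝ} (hb : 0 ≤ b) (hlin : ∀ x, x ≤ 0 → f x = b * x) :
    ∀ x, 0 ≤ x → 0 ≤ f x := by
  intro x0 hx0
  by_contra hneg
  push Not at hneg
  set g : ℝ → ℝ := fun x => x + f x with hg
  set u : ℕ → ℝ := fun n => g^[n] x0 with hu
  have hus : ∀ n, u (n + 1) = u n + f (u n) := by
    intro n
    simp only [hu]; rw [iterate_succ_apply']
  have hu0 : u 0 = x0 := rfl
  have hinv : ∀ n, f (u n) ≤ f x0 ∧ b * u n - f (u n) = b * x0 - f x0 ∧ u n ≤ x0 + n * f x0 := by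
    intro n
    induction n with
    | zero => exact ⟨le_refl _, rfl, by simp [hu0]⟩
    | succ n ih =>
      obtain ⟨h1, h2, h3⟩ := ih
      have h4 : f (u (n + 1)) = (1 + b) * f (u n) := by
        rw [hus, h.2, hlin (f (u n)) (by linarith)]; ring
      refine ⟨?_, ?_, ?_⟩
      · rw [h4]; nlinarith
      · rw [h4, hus, ← h2]; ring
      · rw [hus]; push_cast; linarith
  obtain ⟨n, hn⟩ := exists_nat_gt (x0 / (-f x0))
  rw [div_lt_iff₀ (by linarith)] at hn
  obtain ⟨h1, h2, h3⟩ := hinv n
  have h4 : u n ≤ 0 := by linarith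
  have h5 := hlin _ h4
  rw [h5] at h2
  have : 0 ≤ b * x0 := mul_nonneg hb hx0
  linarith

theorem Sol.step5_aux {f : ℝ → ℝ} (h : Sol f) (hp : ∀ x, 0 ≤ x → f x ≤ 0)
    (hm : ∀ x, x ≤ 0 → 0 ≤ f x) (hne : ¬ ∀ x, f x = 0) :
    ∃ ε > 0, ∀ t, 0 < t → t < ε → f t < 0 := by
  by_contra hcon
  push Not at hcon
  apply hne
  have hz : ∀ z, 0 < z → f z = 0 → ∀ y, y ≤ 0 → f y < z := by
    intro z hz hfz y hy
    by_contra hge
    push Not at hge
    have hivt := intermediate_value_Icc' hy h.1.continuousOn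
    obtain ⟨x, hx, hxz⟩ := hivt (show z ∈ Icc (f 0) (f y) by
      rw [h.zero]; exact ⟨hz.le, hge⟩)
    obtain ⟨n, hn⟩ := exists_nat_gt (-x / z)
    rw [div_lt_iff₀ hz] at hn
    have h1 := h.periodic hxz hfz n
    have h2 := hp (x + n * z) (by linarith)
    linarith
  have hleft : ∀ y, y ≤ 0 → f y = 0 := by
    intro y hy
    refine le_antisymm ?_ (hm y hy)
    by_contra hlt
    push Not at hlt
    obtain ⟨t, ht, htε, hft⟩ := hcon (f y) hlt
    have hft0 : f t = 0 := le_antisymm (hp t ht.le) hft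
    linarith [hz t ht hft0 y hy]
  have hright := h.step2 (le_refl 0) (fun x hx => by rw [hleft x hx]; ring)
  intro x
  rcases le_total x 0 with hx | hx
  · exact hleft x hx
  · exact le_antisymm (hp x hx) (hright x hx)

theorem Sol.step5 {f : ℝ → ℝ} (h : Sol f) (hp : ∀ x, 0 ≤ x → f x ≤ 0)
    (hm : ∀ x, x ≤ 0 → 0 ≤ f x) (hne : ¬ ∀ x, f x = 0) : ∀ x, 0 < x → f x < 0 := by
  obtain ⟨ε, hε, hpos⟩ := h.step5_aux hp hm hne
  have hmir : ∃ ε > 0, ∀ t, 0 < t → t < ε → mirr f t < 0 :=
    h.mir.step5_aux (fun x hx => by simp only [mirr]; linarith [hm (-x) (by linarith)])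
      (fun x hx => by simp only [mirr]; linarith [hp (-x) (by linarith)])
      (fun hall => hne (fun x => by
        have := hall (-x)
        simp only [mirr, neg_neg] at this
        linarith))
  obtain ⟨ε', hε', hneg⟩ := hmir
  intro x hx
  by_contra hge
  push Not at hge
  set C : Set ℝ := {x | ε ≤ x ∧ 0 ≤ f x} with hC
  have hCc : IsClosed C := (isClosed_le continuous_const continuous_id).inter
    (isClosed_le continuous_const h.1)
  have hCne : C.Nonempty := by
    refine ⟨x, ?_, hge⟩
    by_contra hlt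
    push Not at hlt
    linarith [hpos x hx hlt]
  have hCb : BddBelow C := ⟨ε, fun x hx => hx.1⟩
  have hz := hCc.csInf_mem hCne hCb
  set z := sInf C with hzdef
  have hz0 : 0 < z := lt_of_lt_of_le hε hz.1
  have hfz : f z = 0 := le_antisymm (hp z hz0.le) hz.2
  have hnegz : ∀ x, 0 < x → x < z → f x < 0 := by
    intro x hx hxz
    by_contra hle
    push Not at hle
    rcases lt_or_ge x ε with hxε | hxε
    · linarith [hpos x hx hxε]
    · have := csInf_le hCb (show x ∈ C from ⟨hxε, hle⟩)
      linarith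
  refine h.mir.backward (z := -z) (y := -(z / 2)) (ε := ε') (by linarith) ?_ ?_ hε' hneg
  · simp [mirr, hfz]
  · intro w hw1 hw2
    simp only [mirr]
    linarith [hnegz (-w) (by linarith) (by linarith)]

end Pool.Agent.V8H54.AG
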