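import Mathlib
import Pool.Agent.V8H54.AG.Sign

/-!
# Solutions negative on the positive half-line and positive on the negative half-line
-/

namespace Pool.Agent.V8H54.AG

open Filter Topology Set Function

variable {f : ℝ → ℝ}

theorem Sol.symm0 (h : Sol f) {w : ℝ} (hw : w + f w = 0) : -w + f (-w) = 0 := by
  have h1 := h.2 w
  rw [hw, h.zero] at h1
  have h2 : f w = -w := by linarith
  rw [h2] at h1
  linarith

theorem Sol.flip (h : Sol f) {x w : ℝ} (hw : w + f w = 0) (hx : x + f x = w) :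
    (w - x) + f (w - x) = -w := by
  have h1 := h.2 x
  have h2 : f x = w - x := by linarith
  have h3 : f w = -w := by linarith
  rw [hx, h2, h3] at h1
  linarith

theorem Sol.prog (h : Sol f) {x w : ℝ} (hw : w + f w = 0) (hx : x + f x = w) (n : ℕ) :
    (x - 2 * n * w) + f (x - 2 * n * w) = w := by
  induction n with
  | zero => simpa using hx
  | succ n ih =>
    have h1 := h.flip hw ih
    have h2 := h.flip (h.symm0 hw) h1
    have e : -w - (w - (x - 2 * n * w)) = x - 2 * ((n + 1 : ℕ) : ℝ) * w := by push_cast; ring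
    rw [e] at h2
    linarith

theorem Sol.prog' (h : Sol f) {x w : ℝ} (hw : w + f w = 0) (hx : x + f x = w) (n : ℕ) :
    (w - x + 2 * n * w) + f (w - x + 2 * n * w) = -w := by
  have h1 := h.flip hw (h.prog hw hx n)
  have e : w - (x - 2 * n * w) = w - x + 2 * n * w := by ring
  rwa [e] at h1

theorem Sol.noAccum_pos (h : Sol f) {x0 : ℝ} (hx0 : 0 < x0) (hg : x0 + f x0 ≠ 0) :
    ∃ ε > 0, ∀ w, 0 < w → w < ε → w + f w ≠ 0 := by
  have hc : Continuous (fun x => x + f x) := continuous_id.add h.1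
  have hca : ContinuousAt (fun x => x + f x) x0 := hc.continuousAt
  set κ := |x0 + f x0| with hκ
  have hκ0 : 0 < κ := abs_pos.2 hg
  obtain ⟨η, hη, hη'⟩ := Metric.continuousAt_iff.1 hca (κ / 2) (by linarith)
  refine ⟨min (min (η / 2) (κ / 2)) x0, lt_min (lt_min (by linarith) (by linarith)) hx0,
    fun w hw hwε hgw => ?_⟩
  have h1 : w < η / 2 := lt_of_lt_of_le hwε ((min_le_left _ _).trans (min_le_left _ _))
  have h2 : w < κ / 2 := lt_of_lt_of_le hwε ((min_le_left _ _).trans (min_le_right _ _))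
  have h3 : w < x0 := lt_of_lt_of_le hwε (min_le_right _ _)
  rcases lt_or_gt_of_ne hg with hneg | hpos
  · have hκ' : κ = -(x0 + f x0) := by rw [hκ, abs_of_neg hneg]
    have hivt := intermediate_value_Icc' hx0.le hc.continuousOn
    obtain ⟨x, hx, hxw⟩ := hivt (show -w ∈ Icc (x0 + f x0) (0 + f 0) by
      rw [h.zero]; constructor <;> linarith)
    obtain ⟨n, hn⟩ := exists_near (d := 2 * w) (by linarith) hx.2
    have h4 := h.prog (h.symm0 hgw) hxw n
    have e : x - 2 * n * -w = x + n * (2 * w) := by ring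
    rw [e] at h4
    have h5 := @hη' (x + n * (2 * w)) (by rw [Real.dist_eq]; linarith)
    simp only [Real.dist_eq] at h5
    rw [h4, abs_lt] at h5
    linarith [h5.2]
  · have hκ' : κ = x0 + f x0 := by rw [hκ, abs_of_pos hpos]
    have hivt := intermediate_value_Icc hx0.le hc.continuousOn
    obtain ⟨x, hx, hxw⟩ := hivt (show w ∈ Icc (0 + f 0) (x0 + f x0) by
      rw [h.zero]; constructor <;> linarith)
    obtain ⟨n, hn⟩ := exists_near (s := w - x) (x := x0) (d := 2 * w) (by linarith)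
      (by linarith [hx.1])
    have h4 := h.prog' hgw hxw n
    have e : w - x + 2 * n * w = w - x + n * (2 * w) := by ring
    rw [e] at h4
    have h5 := @hη' (w - x + n * (2 * w)) (by rw [Real.dist_eq]; linarith)
    simp only [Real.dist_eq] at h5
    rw [h4, abs_lt] at h5
    linarith [h5.1]

theorem Sol.noAccum (h : Sol f) {x0 : ℝ} (hg : x0 + f x0 ≠ 0) :
    ∃ ε > 0, ∀ w, 0 < w → w < ε → w + f w ≠ 0 := by
  rcases lt_trichotomy x0 0 with hx | hx | hx
  · obtain ⟨ε, hε, hε'⟩ := h.mir.noAccum_pos (x0 := -x0) (by linarith) (by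
      simp only [mirr, neg_neg]
      intro h0
      apply hg
      linarith)
    refine ⟨ε, hε, fun w hw hwε hgw => hε' w hw hwε ?_⟩
    have := h.symm0 hgw
    simp only [mirr]
    linarith
  · rw [hx, h.zero] at hg
    simp at hg
  · exact h.noAccum_pos hx hg

/-- `g x = x + f x` on a downward closed region: the contracting/expanding alternative. -/
theorem Sol.alt (h : Sol f) (hp : ∀ x, 0 < x → f x < 0) (hm : ∀ x, x < 0 → 0 < f x)
    {s : Set ℝ} (hs : s.OrdConnected) (hs0 : ∀ x ∈ s, 0 < x)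
    (hsd : ∀ x ∈ s, ∀ y, 0 < y → y ≤ x → y ∈ s) (hsne : s.Nonempty)
    (hg : ∀ x ∈ s, x + f x ≠ 0) :
    ((∀ x ∈ s, 0 < x + f x) ∧ (∀ x ∈ s, -x + f (-x) < 0)) ∨
    ((∀ x ∈ s, x + f x < 0) ∧ (∀ x ∈ s, 0 < -x + f (-x))) := by
  have hc : Continuous (fun x => x + f x) := continuous_id.add h.1
  have hc' : Continuous (fun x => -x + f (-x)) := hc.comp continuous_neg
  have hg' : ∀ x ∈ s, -x + f (-x) ≠ 0 := by
    intro x hx h0
    have := h.symm0 h0
    rw [neg_neg] at this
    exact hg x hx this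
  obtain ⟨x, hx⟩ := hsne
  have hx0 := hs0 x hx
  rcases sign_const hc hs hg with h1 | h1 <;> rcases sign_const hc' hs hg' with h2 | h2
  · exfalso
    have h3 := h1 x hx
    have h4 := hp x hx0
    have ht : -f x ∈ s := hsd x hx _ (by linarith) (by linarith)
    have h5 := h2 _ ht
    simp only [neg_neg] at h5
    have h6 := h.2 x
    have h7 := hp _ h3
    linarith
  · exact Or.inl ⟨h1, h2⟩
  · exact Or.inr ⟨h1, h2⟩
  · exfalso
    have h3 : -x + f (-x) < 0 := h2 x hx
    have h4 := hm (-x) (by linarith)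
    have ht : f (-x) ∈ s := hsd x hx _ h4 (by linarith)
    have h5 := h1 _ ht
    have h6 := h.2 (-x)
    have h7 := hm _ h3
    linarith

theorem iter_tendsto_region {φ : ℝ → ℝ} (hφ : Continuous φ) {s : Set ℝ}
    (hs0 : ∀ x ∈ s, 0 < x) (hsd : ∀ x ∈ s, ∀ y, 0 < y → y ≤ x → y ∈ s)
    (hp : ∀ x ∈ s, 0 < φ x) (hl : ∀ x ∈ s, φ x < x) {x : ℝ} (hx : x ∈ s) :
    Tendsto (fun n => φ^[n] x) atTop (𝓝 0) := by
  have hmem : ∀ n, φ^[n] x ∈ s := by
    intro n
    induction n with
    | zero => simpa using hx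
    | succ n ih =>
      rw [iterate_succ_apply']
      exact hsd _ ih _ (hp _ ih) (hl _ ih).le
  have hanti : Antitone (fun n => φ^[n] x) := antitone_nat_of_succ_le (fun n => by
    rw [iterate_succ_apply']
    exact (hl _ (hmem n)).le)
  have hbdd : BddBelow (range (fun n => φ^[n] x)) :=
    ⟨0, by rintro _ ⟨n, rfl⟩; exact (hs0 _ (hmem n)).le⟩
  have hlim := tendsto_atTop_ciInf hanti hbdd
  set L := ⨅ n, φ^[n] x with hL
  have hL0 : 0 ≤ L := le_ciInf (fun n => (hs0 _ (hmem n)).le)
  have hLx : L ≤ x := by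
    have := ciInf_le hbdd 0
    simpa using this
  have hfix : IsFixedPt φ L := isFixedPt_of_tendsto_iterate hlim hφ.continuousAt
  rcases hL0.eq_or_lt with h | h
  · rw [h]; exact hlim
  · exact absurd hfix (hl L (hsd x hx L h hLx)).ne

theorem Sol.contr_tendsto (h : Sol f) (hp : ∀ x, 0 < x → f x < 0) (hm : ∀ x, x < 0 → 0 < f x)
    {s : Set ℝ} (hs0 : ∀ x ∈ s, 0 < x)
    (hsd : ∀ x ∈ s, ∀ y, 0 < y → y ≤ x → y ∈ s)
    (h1 : ∀ x ∈ s, 0 < x + f x) (h2 : ∀ x ∈ s, -x + f (-x) < 0) {x : ℝ} (hx : x ∈ s) :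
    Tendsto (fun n => (fun x => f (f x))^[n] x) atTop (𝓝 0) := by
  have hin : ∀ x ∈ s, -f x ∈ s := fun x hx =>
    hsd x hx _ (by linarith [hp x (hs0 x hx)]) (by linarith [h1 x hx])
  refine iter_tendsto_region (φ := fun x => f (f x)) (h.1.comp h.1) hs0 hsd ?_ ?_ hx
  · intro x hx
    exact hm _ (hp x (hs0 x hx))
  · intro x hx
    have h3 := h2 _ (hin x hx)
    rw [neg_neg] at h3
    have h4 := h1 x hx
    linarith

theorem Sol.contr_tendsto' (h : Sol f) (hp : ∀ x, 0 < x → f x < 0) (hm : ∀ x, x < 0 → 0 < f x)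
    {s : Set ℝ} (hs0 : ∀ x ∈ s, 0 < x)
    (hsd : ∀ x ∈ s, ∀ y, 0 < y → y ≤ x → y ∈ s)
    (h1 : ∀ x ∈ s, 0 < x + f x) (h2 : ∀ x ∈ s, -x + f (-x) < 0) {x : ℝ} (hx : -x ∈ s) :
    Tendsto (fun n => (fun x => f (f x))^[n] x) atTop (𝓝 0) := by
  have hfx : f x ∈ s := by
    have h3 := h2 _ hx
    rw [neg_neg] at h3
    exact hsd _ hx _ (hm x (by linarith [hs0 _ hx])) (by linarith)
  have h3 := h.contr_tendsto hp hm hs0 hsd h1 h2 hfx
  rw [← tendsto_add_atTop_iff_nat 1]
  have h4 : Tendsto (fun n => f ((fun x => f (f x))^[n] (f x))) atTop (𝓝 (f 0)) :=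
    (h.1.tendsto 0).comp h3
  rw [h.zero] at h4
  have hcomm : Function.Commute (fun x => f (f x)) f := fun x => rfl
  convert h4 using 2 with n
  rw [iterate_succ_apply', (hcomm.iterate_left n) x]

theorem Sol.diff_const (h : Sol f) {y z : ℝ} (hyz : y + f y = z + f z) (n : ℕ) :
    (fun x => f (f x))^[n] y - (fun x => f (f x))^[n] z = y - z ∧
    (fun x => f (f x))^[n] y + f ((fun x => f (f x))^[n] y) =
      (fun x => f (f x))^[n] z + f ((fun x => f (f x))^[n] z) := by
  induction n with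
  | zero => exact ⟨rfl, by simpa using hyz⟩
  | succ n ih =>
    obtain ⟨i1, i2⟩ := ih
    rw [iterate_succ_apply', iterate_succ_apply']
    set a := (fun x => f (f x))^[n] y
    set b := (fun x => f (f x))^[n] z
    have e1 : f a + f (f a) = f b + f (f b) := by
      rw [← h.2 a, ← h.2 b, i2]
    have e2 : f (f a) + f (f (f a)) = f (f b) + f (f (f b)) := by
      rw [← h.2 (f a), ← h.2 (f b), e1]
    refine ⟨?_, e2⟩
    linarith

theorem Sol.inj_of_tendsto (h : Sol f) {y z : ℝ} (hyz : y + f y = z + f z)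
    (hy : Tendsto (fun n => (fun x => f (f x))^[n] y) atTop (𝓝 0))
    (hz : Tendsto (fun n => (fun x => f (f x))^[n] z) atTop (𝓝 0)) : y = z := by
  have h1 := hy.sub hz
  have h2 : (fun n => (fun x => f (f x))^[n] y - (fun x => f (f x))^[n] z) = fun _ => y - z := by
    funext n
    exact (h.diff_const hyz n).1
  rw [h2, sub_zero] at h1
  have := tendsto_nhds_unique h1 tendsto_const_nhds
  linarith

theorem Sol.no_root (h : Sol f) (hp : ∀ x, 0 < x → f x < 0) (hm : ∀ x, x < 0 → 0 < f x)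
    {w : ℝ} (hw : 0 < w) (hgw : w + f w = 0) (hg : ∀ x, 0 < x → x < w → x + f x ≠ 0) : False := by
  have hc : Continuous (fun x => x + f x) := continuous_id.add h.1
  have hs0 : ∀ x ∈ Ioo 0 w, 0 < x := fun x hx => hx.1
  have hsd : ∀ x ∈ Ioo 0 w, ∀ y, 0 < y → y ≤ x → y ∈ Ioo 0 w := fun x hx y hy hyx =>
    ⟨hy, lt_of_le_of_lt hyx hx.2⟩
  rcases h.alt hp hm (s := Ioo 0 w) ordConnected_Ioo hs0 hsd ⟨w / 2, by constructor <;> linarith⟩
    (fun x hx => hg x hx.1 hx.2) with ⟨h1, h2⟩ | ⟨h1, h2⟩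
  · -- contracting
    have hmid : w / 2 ∈ Ioo 0 w := by constructor <;> linarith
    have hM := h1 _ hmid
    set M := w / 2 + f (w / 2) with hMdef
    have ivt1 := intermediate_value_Ioo (by linarith : (0 : ℝ) ≤ w / 2) hc.continuousOn
    have ivt2 := intermediate_value_Ioo' (by linarith : w / 2 ≤ w) hc.continuousOn
    obtain ⟨y, hy, hyM⟩ := ivt1 (show M / 2 ∈ Ioo (0 + f 0) (w / 2 + f (w / 2)) by
      rw [h.zero]; constructor <;> linarith)
    obtain ⟨z, hz, hzM⟩ := ivt2 (show M / 2 ∈ Ioo (w + f w) (w / 2 + f (w / 2)) by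
      rw [hgw]; constructor <;> linarith)
    have hyz : y + f y = z + f z := by
      simp only at hyM hzM
      rw [hyM, hzM]
    have := h.inj_of_tendsto hyz
      (h.contr_tendsto hp hm hs0 hsd h1 h2 ⟨hy.1, by linarith [hy.2]⟩)
      (h.contr_tendsto hp hm hs0 hsd h1 h2 ⟨by linarith [hz.1], hz.2⟩)
    linarith [hy.2, hz.1]
  · -- expanding
    have hf0 : ∀ x, f x = 0 → x = 0 := by
      intro x hx
      by_contra hne
      rcases lt_or_gt_of_ne hne with h3 | h3
      · linarith [hm x h3]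
      · linarith [hp x h3]
    have hin : ∀ x ∈ Ioo 0 w, -w < f x := by
      intro x hx
      by_contra hle
      push Not at hle
      have ivt := intermediate_value_Icc' hx.1.le h.1.continuousOn
      obtain ⟨x', hx', hx2⟩ := ivt (show -w ∈ Icc (f x) (f 0) by
        rw [h.zero]; constructor <;> linarith)
      have h3 := h.2 x'
      rw [hx2, h.symm0 hgw] at h3
      have h4 := hf0 _ h3
      have h5 : 0 < x' := by
        rcases hx'.1.eq_or_lt with h5 | h5
        · rw [← h5, h.zero] at hx2; linarith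
        · exact h5
      have h6 := h1 x' ⟨h5, lt_of_le_of_lt hx'.2 hx.2⟩
      rw [hx2] at h6
      linarith
    have hin' : ∀ x ∈ Ioo 0 w, f (-x) < w := by
      intro x hx
      by_contra hle
      push Not at hle
      have ivt := intermediate_value_Icc' (by linarith [hx.1] : -x ≤ 0) h.1.continuousOn
      obtain ⟨x', hx', hx2⟩ := ivt (show w ∈ Icc (f 0) (f (-x)) by
        rw [h.zero]; constructor <;> linarith)
      have h3 := h.2 x'
      rw [hx2, hgw] at h3
      have h4 := hf0 _ h3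
      have h5 : x' < 0 := by
        rcases hx'.2.eq_or_lt with h5 | h5
        · rw [h5, h.zero] at hx2; linarith
        · exact h5
      have h6 := h2 (-x') ⟨by linarith, by linarith [hx'.1, hx.2]⟩
      rw [neg_neg, hx2] at h6
      linarith
    have hP : ∀ z, z ≠ 0 → |z| < w → f z ≠ 0 ∧ |f z| < w ∧ |f z| = |z| + |z + f z| := by
      intro z hz hzw
      rcases lt_or_gt_of_ne hz with h3 | h3
      · rw [abs_of_neg h3] at hzw
        have hmem : -z ∈ Ioo 0 w := ⟨by linarith, hzw⟩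
        have h4 := hm z h3
        have h5 := hin' _ hmem
        have h6 := h2 _ hmem
        rw [neg_neg] at h5 h6
        refine ⟨h4.ne', by rwa [abs_of_pos h4], ?_⟩
        rw [abs_of_pos h4, abs_of_neg h3, abs_of_pos h6]; ring
      · rw [abs_of_pos h3] at hzw
        have hmem : z ∈ Ioo 0 w := ⟨h3, hzw⟩
        have h4 := hp z h3
        have h5 := hin _ hmem
        have h6 := h1 _ hmem
        refine ⟨h4.ne, by rw [abs_of_neg h4]; linarith, ?_⟩
        rw [abs_of_neg h4, abs_of_pos h3, abs_of_neg h6]; ring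
    have hall : ∀ z, z ≠ 0 → |z| < w → ∀ n, f^[n] z ≠ 0 ∧ |f^[n] z| < w ∧ |z| ≤ |f^[n] z| := by
      intro z hz hzw n
      induction n with
      | zero => exact ⟨by simpa using hz, by simpa using hzw, by simp⟩
      | succ n ih =>
        rw [iterate_succ_apply']
        obtain ⟨i1, i2, i3⟩ := ih
        obtain ⟨j1, j2, j3⟩ := hP _ i1 i2
        exact ⟨j1, j2, by rw [j3]; linarith [abs_nonneg (f^[n] z + f (f^[n] z))]⟩
    set x := w / 2 with hx
    have hxm : x ∈ Ioo 0 w := by constructor <;> linarith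
    set y := x + f x with hy
    have hy0 : y < 0 := h1 x hxm
    have hyw : |y| < w := by
      rw [abs_of_neg hy0]
      linarith [hin x hxm, hxm.1]
    have hcomm : Function.Commute f (fun x => x + f x) := fun x => h.2 x
    have hgrow : ∀ n : ℕ, n * |y| ≤ |f^[n] x| := by
      intro n
      induction n with
      | zero => simp
      | succ n ih =>
        have h3 := hall x hxm.1.ne' (by rw [abs_of_pos hxm.1]; exact hxm.2) n
        have h4 := (hP _ h3.1 h3.2.1).2.2
        have h5 := (hall y hy0.ne hyw n).2.2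
        have h6 : f^[n] (x + f x) = f^[n] x + f (f^[n] x) := (hcomm.iterate_left n) x
        rw [iterate_succ_apply', h4, ← h6]
        push_cast
        linarith
    obtain ⟨n, hn⟩ := exists_nat_gt (w / |y|)
    rw [div_lt_iff₀ (abs_pos.2 hy0.ne)] at hn
    have h3 := hall x hxm.1.ne' (by rw [abs_of_pos hxm.1]; exact hxm.2) n
    linarith [hgrow n, h3.2.1]

end Pool.Agent.V8H54.AG
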